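import Mathlib
import Pool.Agent.Lib_helper40.SurfaceFinite

/-!
# Convex bodies in space whose central planes bisect the surface area

A convex body `K` in Euclidean 3-space such that the planes through an interior point `x` bisect
its surface area is centrally symmetric about `x`.
-/

set_option autoImplicit false

open Set Filter Topology MeasureTheory
open scoped ENNReal

namespace Pool.Agent.Results.MP_be71bd_gt.CentralPlanes

/-- Euclidean 3-space. -/
abbrev Space := EuclideanSpace ℝ (Fin 3)

/-- A convex body: a compact convex set with nonempty interior. -/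
def IsConvexBody (K : Set Space) : Prop :=
  Convex ℝ K ∧ IsCompact K ∧ (interior K).Nonempty

/-- The surface area (2-dimensional Hausdorff measure) of the part of the surface of `K` that lies
in `A`. -/
noncomputable def surfaceArea (K A : Set Space) : ℝ≥0∞ :=
  Measure.hausdorffMeasure 2 (frontier K ∩ A)

/-- The closed half-space `{y : ⟨y, u⟩ ≥ ⟨x, u⟩}`, one of the two closed half-spaces bounded by the
plane through `x` orthogonal to `u`. -/
def upper (x u : Space) : Set Space := {y | inner ℝ x u ≤ inner ℝ y u}

/-- The closed half-space `{y : ⟨y, u⟩ ≤ ⟨x, u⟩}`, the other closed half-space bounded by the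
plane through `x` orthogonal to `u`. -/
def lower (x u : Space) : Set Space := {y | inner ℝ y u ≤ inner ℝ x u}

/-- The plane through `x` orthogonal to `u` bisects the surface of `K`. -/
def Bisects (K : Set Space) (x u : Space) : Prop :=
  surfaceArea K (upper x u) = surfaceArea K (lower x u)

/-- `K` is centrally symmetric about `x`. -/
def IsCentrallySymmetric (K : Set Space) (x : Space) : Prop := ∀ y ∈ K, (2 : ℝ) • x - y ∈ K

open Pool.Agent.Lib_helper40

/-- The gauge of a compact convex neighbourhood of the origin. -/
theorem isGauge_gauge {K : Set Space} (hK : Convex ℝ K) (hKc : IsCompact K)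
    (h0 : K ∈ 𝓝 (0 : Space)) : IsGauge (gauge K) := by
  have habs : Absorbent ℝ K := absorbent_nhds_zero h0
  refine ⟨⟨convex_univ, ?_⟩, ?_, ?_, ?_⟩
  · intro x _ y _ a b ha hb _
    calc gauge K (a • x + b • y) ≤ gauge K (a • x) + gauge K (b • y) :=
          gauge_add_le hK habs _ _
      _ = a • gauge K x + b • gauge K y := by
          rw [gauge_smul_of_nonneg ha, gauge_smul_of_nonneg hb]
  · intro t ht y
    rw [gauge_smul_of_nonneg ht]; rfl
  · intro y hy
    exact (gauge_pos habs (NormedSpace.isVonNBounded_of_isBounded ℝ hKc.isBounded)).2 hy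
  · exact hK.lipschitz_gauge h0

/-- A rotation of a gauge. -/
theorem isGauge_comp {N : Space → ℝ} (hN : IsGauge N) (R : Space ≃ₗᵢ[ℝ] Space) :
    IsGauge (fun y => N (R y)) := by
  obtain ⟨h1, h2, h3, C, h4⟩ := hN
  refine ⟨⟨convex_univ, ?_⟩, ?_, ?_, ?_⟩
  · intro x _ y _ a b ha hb hab
    have := h1.2 (mem_univ (R x)) (mem_univ (R y)) ha hb hab
    simpa [map_add, map_smul] using this
  · intro t ht y
    simp only [map_smul]
    exact h2 t ht (R y)
  · intro y hy
    exact h3 (R y) (by simpa using hy)
  · refine ⟨C, LipschitzWith.of_dist_le_mul fun a b => ?_⟩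
    have := h4.dist_le_mul (R a) (R b)
    rwa [R.dist_map] at this

/-- A plane through the origin meets the unit surface of a gauge in a null set. -/
theorem section_null {N : Space → ℝ} (hN : IsGauge N) {u : Space} (hu : ‖u‖ = 1) :
    Measure.hausdorffMeasure 2 ({y : Space | inner ℝ y u = 0} ∩ {y : Space | N y = 1}) = 0 := by
  have hc : ‖(c2 : Space)‖ = ‖u‖ := by rw [hu]; simp [c2]
  set R : Space ≃ₗᵢ[ℝ] Space := (ℝ ∙ ((c2 : Space) - u))ᗮ.reflection with hR
  have hRc : R c2 = u := Submodule.reflection_sub hc
  have h := surface_section_null (isGauge_comp hN R)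
  have e : {y : Space | inner ℝ y u = 0} ∩ {y : Space | N y = 1} =
      R.toIsometryEquiv '' ({y : Space | y 2 = 0} ∩ {y : Space | N (R y) = 1}) := by
    have key : ∀ z : Space, inner ℝ (R z) u = z 2 := by
      intro z
      rw [← hRc, R.inner_map_map]
      have e : (c2 : Space) = EuclideanSpace.single 2 1 := rfl
      rw [e, EuclideanSpace.inner_single_right]
      simp
    ext w
    constructor
    · rintro ⟨h1, h2⟩
      refine ⟨R.symm w, ⟨?_, ?_⟩, ?_⟩
      · have := key (R.symm w)
        rw [R.apply_symm_apply] at this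
        simp only [mem_ofPred_eq] at h1 ⊢
        rw [← this, h1]
      · simp only [mem_ofPred_eq, R.apply_symm_apply] at h2 ⊢
        exact h2
      · simp
    · rintro ⟨z, ⟨h1, h2⟩, rfl⟩
      refine ⟨?_, h2⟩
      have := key z
      simp only [mem_ofPred_eq] at h1 ⊢
      rw [h1] at this
      exact this
  rw [e, IsometryEquiv.hausdorffMeasure_image]
  exact h

/-- From closed half-spaces with normals in a dense set to all open half-spaces. -/
theorem open_of_dense {N : Space → ℝ} (hN : IsGauge N) {D : Set Space}
    (hD : Metric.sphere (0 : Space) 1 ⊆ closure (D ∩ Metric.sphere (0 : Space) 1))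
    (h : ∀ u ∈ D, ‖u‖ = 1 →
      Measure.hausdorffMeasure 2 {y : Space | N y = 1 ∧ 0 ≤ inner ℝ y u} =
        Measure.hausdorffMeasure 2 {y : Space | N y = 1 ∧ inner ℝ y u ≤ 0}) (v : Space) :
    Measure.hausdorffMeasure 2 {y : Space | N y = 1 ∧ 0 < inner ℝ y v} =
      Measure.hausdorffMeasure 2 {y : Space | N y = 1 ∧ inner ℝ y v < 0} := by
  by_cases hv : v = 0
  · subst hv; simp
  have hvn : 0 < ‖v‖ := norm_pos_iff.2 hv
  set w : Space := ‖v‖⁻¹ • v with hw
  have hwn : ‖w‖ = 1 := by
    rw [hw, norm_smul, norm_inv, norm_norm, inv_mul_cancel₀ hvn.ne']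
  have hvw : v = ‖v‖ • w := by rw [hw, smul_smul, mul_inv_cancel₀ hvn.ne', one_smul]
  have hcont := hN.continuous
  set Sg : Set Space := {y | N y = 1} with hSg
  have mSg : MeasurableSet Sg := (isClosed_eq hcont continuous_const).measurableSet
  set μ : Measure Space := (Measure.hausdorffMeasure 2 : Measure Space).restrict Sg with hμ
  have hfin : IsFiniteMeasure μ :=
    ⟨by rw [hμ, Measure.restrict_apply_univ]; exact surface_finite hN⟩
  have hin : ∀ u : Space, Continuous (fun y : Space => inner ℝ y u) := fun u => by fun_prop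
  have m1 : ∀ u : Space, MeasurableSet {y : Space | 0 ≤ inner ℝ y u} := fun u =>
    (isClosed_le continuous_const (hin u)).measurableSet
  have m2 : ∀ u : Space, MeasurableSet {y : Space | inner ℝ y u ≤ 0} := fun u =>
    (isClosed_le (hin u) continuous_const).measurableSet
  have m3 : ∀ u : Space, MeasurableSet {y : Space | 0 < inner ℝ y u} := fun u =>
    (isOpen_lt continuous_const (hin u)).measurableSet
  have m4 : ∀ u : Space, MeasurableSet {y : Space | inner ℝ y u < 0} := fun u =>
    (isOpen_lt (hin u) continuous_const).measurableSet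
  have conv : ∀ (P : Space → Prop), MeasurableSet {y | P y} →
      Measure.hausdorffMeasure 2 {y : Space | N y = 1 ∧ P y} = μ {y | P y} := by
    intro P hP
    rw [hμ, Measure.restrict_apply hP]
    congr 1
    ext y
    exact and_comm
  obtain ⟨u, huD, hlim⟩ := mem_closure_iff_seq_limit.1 (hD (mem_sphere_zero_iff_norm.2 hwn))
  have hae : ∀ᵐ y ∂μ, inner ℝ y w ≠ 0 := by
    rw [ae_iff, hμ, Measure.restrict_apply]
    · have := section_null hN hwn
      simpa using this
    · simp only [ne_eq, not_not]
      exact (isClosed_eq (hin w) continuous_const).measurableSet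
  have ht : ∀ y : Space, Tendsto (fun n => inner ℝ y (u n)) atTop (𝓝 (inner ℝ y w)) := fun y =>
    tendsto_const_nhds.inner hlim
  have t1 : Tendsto (fun n => μ {y : Space | 0 ≤ inner ℝ y (u n)}) atTop
      (𝓝 (μ {y : Space | 0 < inner ℝ y w})) := by
    apply tendsto_measure_of_ae_tendsto_indicator_of_isFiniteMeasure atTop (m3 w)
      (fun n => m1 (u n))
    filter_upwards [hae] with y hy
    rcases lt_or_gt_of_ne hy with hneg | hpos
    · filter_upwards [(ht y).eventually (gt_mem_nhds hneg)] with n hn
      constructor
      · intro h1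
        have h1' : (0:ℝ) ≤ inner ℝ y (u n) := h1
        linarith
      · intro h1
        have h1' : (0:ℝ) < inner ℝ y w := h1
        linarith
    · filter_upwards [(ht y).eventually (lt_mem_nhds hpos)] with n hn
      exact ⟨fun _ => hpos, fun _ => hn.le⟩
  have t2 : Tendsto (fun n => μ {y : Space | inner ℝ y (u n) ≤ 0}) atTop
      (𝓝 (μ {y : Space | inner ℝ y w < 0})) := by
    apply tendsto_measure_of_ae_tendsto_indicator_of_isFiniteMeasure atTop (m4 w)
      (fun n => m2 (u n))
    filter_upwards [hae] with y hy
    rcases lt_or_gt_of_ne hy with hneg | hpos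
    · filter_upwards [(ht y).eventually (gt_mem_nhds hneg)] with n hn
      exact ⟨fun _ => hneg, fun _ => hn.le⟩
    · filter_upwards [(ht y).eventually (lt_mem_nhds hpos)] with n hn
      constructor
      · intro h1
        have h1' : inner ℝ y (u n) ≤ (0:ℝ) := h1
        linarith
      · intro h1
        have h1' : inner ℝ y w < (0:ℝ) := h1
        linarith
  have heq : ∀ n, μ {y : Space | 0 ≤ inner ℝ y (u n)} = μ {y : Space | inner ℝ y (u n) ≤ 0} := by
    intro n
    have := h (u n) (huD n).1 (mem_sphere_zero_iff_norm.1 (huD n).2)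
    rwa [conv _ (m1 (u n)), conv _ (m2 (u n))] at this
  have hfinal : μ {y : Space | 0 < inner ℝ y w} = μ {y : Space | inner ℝ y w < 0} := by
    refine tendsto_nhds_unique t1 ?_
    simp only [heq]
    exact t2
  have e1 : ∀ y : Space, (0 < inner ℝ y v ↔ 0 < inner ℝ y w) := by
    intro y
    rw [hvw, inner_smul_right]
    exact mul_pos_iff_of_pos_left hvn
  have e2 : ∀ y : Space, (inner ℝ y v < 0 ↔ inner ℝ y w < 0) := by
    intro y
    rw [hvw, inner_smul_right]
    constructor
    · intro h1
      by_contra h2
      push Not at h2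
      have := mul_nonneg hvn.le h2
      linarith
    · intro h1
      exact mul_neg_of_pos_of_neg hvn h1
  simp only [e1, e2]
  rw [conv _ (m3 w), conv _ (m4 w)]
  exact hfinal

/-- A centrally symmetric body: every plane through the centre bisects the surface. -/
theorem bisects_of_symmetric {K : Set Space} {x : Space} (h : IsCentrallySymmetric K x)
    (u : Space) : Bisects K x u := by
  set σ : Space ≃ᵢ Space := (AffineIsometryEquiv.pointReflection ℝ x).toIsometryEquiv with hσ
  have hσa : ∀ z, σ z = (2 : ℝ) • x - z := by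
    intro z
    have : σ z = x - z + x := by simp [hσ, AffineIsometryEquiv.pointReflection_apply]
    rw [this]; module
  have hσσ : ∀ z, σ (σ z) = z := by intro z; rw [hσa, hσa]; module
  have hK : σ ⁻¹' K = K := by
    ext z
    constructor
    · intro hz
      have h1 := h _ hz
      rw [← hσa, hσσ] at h1
      exact h1
    · intro hz
      have h1 := h _ hz
      rw [← hσa] at h1
      exact h1
  have hfr : σ ⁻¹' frontier K = frontier K := by
    have h1 := σ.toHomeomorph.preimage_frontier K
    have h2 : (σ.toHomeomorph : Space → Space) ⁻¹' K = K := hK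
    rw [h2] at h1
    exact h1
  have himg : σ '' (frontier K ∩ upper x u) = frontier K ∩ lower x u := by
    ext w
    constructor
    · rintro ⟨z, ⟨h1, h2⟩, rfl⟩
      refine ⟨?_, ?_⟩
      · have : σ z ∈ σ ⁻¹' frontier K := by
          show σ (σ z) ∈ frontier K
          rw [hσσ]; exact h1
        rwa [hfr] at this
      · simp only [upper, mem_ofPred_eq] at h2
        simp only [lower, mem_ofPred_eq, hσa, inner_sub_left, inner_smul_left]
        simp only [conj_trivial]
        linarith
    · rintro ⟨h1, h2⟩
      refine ⟨σ w, ⟨?_, ?_⟩, hσσ w⟩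
      · have : w ∈ σ ⁻¹' frontier K := by rw [hfr]; exact h1
        exact this
      · simp only [lower, mem_ofPred_eq] at h2
        simp only [upper, mem_ofPred_eq, hσa, inner_sub_left, inner_smul_left]
        simp only [conj_trivial]
        linarith
  unfold Bisects surfaceArea
  rw [← himg, IsometryEquiv.hausdorffMeasure_image]

/-- **Theorem.** Let `K` be a convex body in Euclidean 3-space, `x` an interior point of `K` and
`D` a set of vectors whose unit vectors are dense in the unit sphere (for instance: the set of all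
vectors). Then `K` is centrally symmetric about `x` if and only if, for every unit vector `u` in
`D`, the plane through `x` orthogonal to `u` bisects the surface of `K`. -/
theorem result (K : Set Space) (hK : IsConvexBody K) (x : Space) (hx : x ∈ interior K)
    (D : Set Space)
    (hD : Metric.sphere (0 : Space) 1 ⊆ closure (D ∩ Metric.sphere (0 : Space) 1)) :
    (∀ u ∈ D, ‖u‖ = 1 → Bisects K x u) ↔ IsCentrallySymmetric K x := by
  refine ⟨fun hbis => ?_, fun h u _ _ => bisects_of_symmetric h u⟩
  obtain ⟨hKconv, hKc, -⟩ := hK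
  intro y hy
  -- translate to the origin
  set τ : Space ≃ᵢ Space := IsometryEquiv.addRight x with hτ
  have hτa : ∀ z, τ z = z + x := fun z => rfl
  set K₀ : Set Space := τ ⁻¹' K with hK₀
  have hmem : ∀ z, z ∈ K₀ ↔ z + x ∈ K := fun z => Iff.rfl
  have hconv : Convex ℝ K₀ := by
    intro u hu v hv a b ha hb hab
    rw [hmem] at hu hv ⊢
    have := hKconv hu hv ha hb hab
    have e : a • (u + x) + b • (v + x) = a • u + b • v + (a + b) • x := by module
    rw [e, hab, one_smul] at this
    exact this
  have hcomp : IsCompact K₀ := by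
    have : K₀ = τ.symm '' K := by
      rw [hK₀]
      exact (τ.toEquiv.image_symm_eq_preimage K).symm
    rw [this]
    exact hKc.image τ.symm.continuous
  have hfront : frontier K₀ = τ ⁻¹' frontier K := by
    rw [hK₀]
    exact (τ.toHomeomorph.preimage_frontier K).symm
  have hnhds : K₀ ∈ 𝓝 (0 : Space) := by
    have h1 : K ∈ 𝓝 (τ 0) := by
      rw [hτa, zero_add]
      exact mem_interior_iff_mem_nhds.1 hx
    exact τ.continuous.continuousAt.preimage_mem_nhds h1
  have hG := isGauge_gauge hconv hcomp hnhds
  have hfr : ∀ z, gauge K₀ z = 1 ↔ z ∈ frontier K₀ := fun z =>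
    gauge_eq_one_iff_mem_frontier hconv hnhds
  have hb0 : ∀ u ∈ D, ‖u‖ = 1 →
      Measure.hausdorffMeasure 2 {z : Space | gauge K₀ z = 1 ∧ 0 ≤ inner ℝ z u} =
        Measure.hausdorffMeasure 2 {z : Space | gauge K₀ z = 1 ∧ inner ℝ z u ≤ 0} := by
    intro u huD hu1
    have e1 : τ '' {z : Space | gauge K₀ z = 1 ∧ 0 ≤ inner ℝ z u} =
        frontier K ∩ upper x u := by
      ext w
      constructor
      · rintro ⟨z, ⟨h1, h2⟩, rfl⟩
        rw [hfr, hfront] at h1
        refine ⟨h1, ?_⟩
        simp only [upper, mem_ofPred_eq, hτa, inner_add_left]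
        linarith
      · rintro ⟨h1, h2⟩
        simp only [upper, mem_ofPred_eq] at h2
        refine ⟨w - x, ⟨?_, ?_⟩, ?_⟩
        · rw [hfr, hfront, mem_preimage, hτa, sub_add_cancel]
          exact h1
        · rw [inner_sub_left]; linarith
        · rw [hτa, sub_add_cancel]
    have e2 : τ '' {z : Space | gauge K₀ z = 1 ∧ inner ℝ z u ≤ 0} =
        frontier K ∩ lower x u := by
      ext w
      constructor
      · rintro ⟨z, ⟨h1, h2⟩, rfl⟩
        rw [hfr, hfront] at h1
        refine ⟨h1, ?_⟩
        simp only [lower, mem_ofPred_eq, hτa, inner_add_left]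
        linarith
      · rintro ⟨h1, h2⟩
        simp only [lower, mem_ofPred_eq] at h2
        refine ⟨w - x, ⟨?_, ?_⟩, ?_⟩
        · rw [hfr, hfront, mem_preimage, hτa, sub_add_cancel]
          exact h1
        · rw [inner_sub_left]; linarith
        · rw [hτa, sub_add_cancel]
    have h := hbis u huD hu1
    unfold Bisects surfaceArea at h
    rw [← e1, ← e2, IsometryEquiv.hausdorffMeasure_image,
      IsometryEquiv.hausdorffMeasure_image] at h
    exact h
  have hb := open_of_dense hG hD hb0
  have heven := gauge_even hG hb (y - x)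
  have hy0 : y - x ∈ K₀ := by rw [hmem, sub_add_cancel]; exact hy
  have h1 : gauge K₀ (y - x) ≤ 1 := gauge_le_one_of_mem hy0
  have h2 : gauge K₀ (-(y - x)) ≤ 1 := heven.trans h1
  have h3 : -(y - x) ∈ K₀ := by
    have := (gauge_le_one_iff_mem_closure hconv hnhds).1 h2
    rwa [hcomp.isClosed.closure_eq] at this
  rw [hmem] at h3
  have e : -(y - x) + x = (2 : ℝ) • x - y := by module
  rwa [e] at h3

end Pool.Agent.Results.MP_be71bd_gt.CentralPlanes
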